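import Mathlib
import Pool.Agent.Work.MP_e752eb_gt.Good

open Set Topology Filter TopologicalSpace

namespace Pool.Agent.Results.MP_e752eb_gt.CechStrongTelgarsky

universe u

/-- `X` is Čech-complete: (the image of) `X` is a `G_δ` subset of its Stone-Čech
compactification. -/
def CechComplete (X : Type u) [TopologicalSpace X] : Prop :=
  IsGδ (Set.range (stoneCechUnit : X → StoneCech X))

/-- `𝓑` is a base of `X` consisting of non-empty open sets. -/
def IsBaseOfNonemptyOpens {X : Type u} [TopologicalSpace X] (𝓑 : Set (Set X)) : Prop :=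
  IsTopologicalBasis 𝓑 ∧ ∀ B ∈ 𝓑, IsOpen B ∧ B.Nonempty

/-- A sequence `(B n)` of subsets of `X` is nested if `Cl (B (n+1)) ⊆ Int (B n)` for all `n`. -/
def Nested {X : Type u} [TopologicalSpace X] (B : ℕ → Set X) : Prop :=
  ∀ n, closure (B (n + 1)) ⊆ interior (B n)

/-- A regular filter base: a non-empty family `𝓕` of sets such that for all `F, G ∈ 𝓕` some
`H ∈ 𝓕` has `Cl H ⊆ F ∩ G`. -/
def IsRegularFilterBase {X : Type u} [TopologicalSpace X] (𝓕 : Set (Set X)) : Prop :=
  𝓕.Nonempty ∧ ∀ F ∈ 𝓕, ∀ G ∈ 𝓕, ∃ H ∈ 𝓕, closure H ⊆ F ∩ G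

/-- Every Čech-complete (Tychonoff) space `X` has a base `𝓑` of non-empty open sets such that
every nested sequence of members of `𝓑` has non-empty intersection (so `X` is strongly Telgársky
pseudocomplete); the same base `𝓑` has the stronger property that every regular filter base
contained in `𝓑` has non-empty intersection (so `X` is subcompact in the sense of de Groot). -/
theorem result (X : Type u) [TopologicalSpace X] [T35Space X] (hX : CechComplete X) :
    ∃ 𝓑 : Set (Set X), IsBaseOfNonemptyOpens 𝓑 ∧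
      (∀ B : ℕ → Set X, (∀ n, B n ∈ 𝓑) → Nested B → (⋂ n, B n).Nonempty) ∧
      (∀ 𝓕 : Set (Set X), 𝓕 ⊆ 𝓑 → IsRegularFilterBase 𝓕 → (⋂₀ 𝓕).Nonempty) := by
  classical
  obtain ⟨O, hO, hOX⟩ := isGδ_iff_eq_iInter_nat.mp hX
  have hmemO : ∀ (n : ℕ) (x : X), stoneCechUnit x ∈ O n := fun n x => by
    have : stoneCechUnit x ∈ ⋂ n, O n := hOX ▸ mem_range_self x
    exact mem_iInter.mp this n
  -- small neighbourhoods
  have hV : ∀ (n : ℕ) (x : X), ∃ N : Set (StoneCech X),
      N ∈ 𝓝 (stoneCechUnit x) ∧ IsClosed N ∧ N ⊆ O n := by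
    intro n x
    obtain ⟨N, hN, hNc, hNO⟩ := exists_mem_nhds_isClosed_subset ((hO n).mem_nhds (hmemO n x))
    exact ⟨N, hN, hNc, hNO⟩
  choose N hN hNc hNO using hV
  let U : ℕ → X → Set X := fun n x => stoneCechUnit ⁻¹' (interior (N n x))
  have hU : ∀ n x, IsOpen (U n x) := fun n x =>
    isOpen_interior.preimage continuous_stoneCechUnit
  have hUm : ∀ n x, x ∈ U n x := fun n x => mem_interior_iff_mem_nhds.mpr (hN n x)
  have hcomp : ∀ F : Filter X, F.NeBot → (∀ k, ∃ y, U k y ∈ F) → ∃ p, ClusterPt p F := by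
    intro F hF hk
    obtain ⟨q, hq⟩ := exists_clusterPt_of_compactSpace (Filter.map (stoneCechUnit (α := X)) F)
    have hqO : q ∈ ⋂ n, O n := by
      rw [mem_iInter]
      intro n
      obtain ⟨y, hy⟩ := hk n
      apply hNO n y
      rw [← (hNc n y).closure_eq, mem_closure_iff_clusterPt]
      refine hq.mono ?_
      rw [le_principal_iff, Filter.mem_map]
      exact Filter.mem_of_superset hy fun z hz => (interior_subset : interior (N n y) ⊆ N n y) hz
    rw [← hOX] at hqO
    obtain ⟨p, rfl⟩ := hqO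
    refine ⟨p, ?_⟩
    have hind : IsInducing (stoneCechUnit : X → StoneCech X) :=
      (isEmbedding_stoneCechUnit (X := X)).toIsInducing
    have : (Filter.map (stoneCechUnit (α := X)) (𝓝 p ⊓ F)).NeBot := by
      rw [hind.nhds_eq_comap, Filter.push_pull', inf_comm]
      rw [inf_comm]
      exact hq
    exact this.of_map
  obtain ⟨𝓑, hbase, hne, hdir⟩ :=
    Pool.Agent.Work.MP_e752eb_gt.exists_base_of_complete_covers U hU hUm hcomp
  have hreg : ∀ 𝓕 : Set (Set X), 𝓕 ⊆ 𝓑 → IsRegularFilterBase 𝓕 → (⋂₀ 𝓕).Nonempty := by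
    rintro 𝓕 h𝓕 ⟨h𝓕ne, h𝓕r⟩
    obtain ⟨p, hp⟩ := hdir 𝓕 h𝓕 h𝓕ne (fun F hF G hG => by
      obtain ⟨H, hH, hHs⟩ := h𝓕r F hF G hG
      exact ⟨H, hH, subset_closure.trans hHs⟩)
    refine ⟨p, fun F hF => ?_⟩
    obtain ⟨H, hH, hHs⟩ := h𝓕r F hF F hF
    exact (hHs (hp H hH)).1
  refine ⟨𝓑, ⟨hbase, fun B hB => ⟨hbase.isOpen hB, hne B hB⟩⟩, ?_, hreg⟩
  intro B hB hnest
  have hanti : ∀ m n, m ≤ n → B n ⊆ B m := by
    intro m n hmn
    induction hmn with
    | refl => exact subset_rfl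
    | step _ ih => exact (subset_closure.trans ((hnest _).trans interior_subset)).trans ih
  have := hreg (range B) (by rintro _ ⟨n, rfl⟩; exact hB n) ⟨range_nonempty B, by
    rintro _ ⟨m, rfl⟩ _ ⟨n, rfl⟩
    refine ⟨B (max m n + 1), mem_range_self _, subset_inter ?_ ?_⟩
    · exact ((hnest _).trans interior_subset).trans (hanti _ _ (le_max_left m n))
    · exact ((hnest _).trans interior_subset).trans (hanti _ _ (le_max_right m n))⟩
  rwa [sInter_range] at this

end Pool.Agent.Results.MP_e752eb_gt.CechStrongTelgarsky
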